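import Mathlib
import Pool.Agent.Results.MP_047b76_an.NowhereAlongCurves

set_option autoImplicit false

namespace Pool.Agent.Results.MP_3b0c1c_an.GenericNowhere

open Filter Topology
open Pool.Agent.Results.MP_047b76_an.NowhereAlongCurves (q b q_pos b_pos one_lt_q shift side
  exists_coord increment coord_le continuous_f)

/-- The extension by zero of a function on the closure of `U`. Composed with a curve in `U` it is
`f ∘ c`. -/
noncomputable def ext {d : ℕ} (U : Set (EuclideanSpace ℝ (Fin d))) (f : C(closure U, ℝ))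
    (x : EuclideanSpace ℝ (Fin d)) : ℝ := by
  classical
  exact if h : x ∈ closure U then f ⟨x, h⟩ else 0

/-- The set `𝒩(U)` of the `f ∈ C(closure U)` such that `f ∘ c` is nowhere differentiable for every
unit speed `C^1` curve `c : I → U`. -/
def NowhereSet {d : ℕ} (U : Set (EuclideanSpace ℝ (Fin d))) : Set C(closure U, ℝ) :=
  {f | ∀ (I : Set ℝ) (c : ℝ → EuclideanSpace ℝ (Fin d)), I.OrdConnected →
    (interior I).Nonempty → ContDiffOn ℝ 1 c I → (∀ t ∈ I, ‖derivWithin c I t‖ = 1) →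
    (∀ t ∈ I, c t ∈ U) → ∀ t₀ ∈ I, ¬ DifferentiableWithinAt ℝ (fun t => ext U f (c t)) I t₀}

section
variable {d : ℕ} [NeZero d]


/-- the explicit function of the existence problem -/
noncomputable abbrev F : (EuclideanSpace ℝ (Fin d)) → ℝ := Pool.Agent.Results.MP_047b76_an.NowhereAlongCurves.f d

/-- At scale `n` the increments of `F` are large in a whole cone. -/
lemma cone (x u : (EuclideanSpace ℝ (Fin d))) (hu : ‖u‖ = 1) (i : Fin d) (hi : 1 ≤ d * |u i|) (n : ℕ)
    (hn : Fin.ofNat d n = i) :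
    ∃ s : ℝ, 1 ≤ s * b d ^ n ∧ s * b d ^ n ≤ 4 * d ∧ ∀ y : (EuclideanSpace ℝ (Fin d)),
      ‖y - x - s • u‖ ≤ s / (48 * d) → (1 / 25) ^ n * (1 / 12) ≤ |F y - F x| := by
  have hdpos : (0 : ℝ) < d := by exact_mod_cast NeZero.pos d
  have hd1 : (1 : ℝ) ≤ d := by exact_mod_cast NeZero.one_le
  have hu0 : u ≠ 0 := by rintro rfl; simp at hu
  have hω : 0 < |u i| := by
    by_contra hcon
    push Not at hcon
    have : |u i| = 0 := le_antisymm hcon (abs_nonneg _)
    rw [this, mul_zero] at hi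
    linarith
  have hω1 : |u i| ≤ 1 := (coord_le u i).trans hu.le
  have hbp := b_pos (d := d)
  have hbn : 0 < b d ^ n := by positivity
  set θ : ℝ := b d ^ n * x i with hθ
  obtain ⟨φ, hφ, hφu⟩ : ∃ φ : ℝ, (φ = 1 ∨ φ = -1) ∧ u i = φ * |u i| := by
    rcases le_total 0 (u i) with h | h
    · exact ⟨1, Or.inl rfl, by rw [abs_of_nonneg h]; ring⟩
    · exact ⟨-1, Or.inr rfl, by rw [abs_of_nonpos h]; ring⟩
  have hpi : Real.pi ≤ 4 := Real.pi_le_four
  have hpi2 : 2 ≤ Real.pi := Real.two_le_pi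
  obtain ⟨s, hs0, hs1, hs2⟩ : ∃ s : ℝ, 1 ≤ s * (|u i| * b d ^ n) ∧
      s * (|u i| * b d ^ n) ≤ 4 ∧
      1 / 3 ≤ |Real.cos (θ + b d ^ n * (s * u i)) - Real.cos θ| := by
    rcases shift θ φ hφ with h | h
    · refine ⟨Real.pi / (|u i| * b d ^ n), ?_, ?_, ?_⟩
      · rw [div_mul_cancel₀ _ (by positivity)]; linarith
      · rw [div_mul_cancel₀ _ (by positivity)]; exact hpi
      · have : b d ^ n * ((Real.pi / (|u i| * b d ^ n)) * u i) = φ * Real.pi := by
          have h5 : b d ^ n * ((Real.pi / (|u i| * b d ^ n)) * u i) =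
            (u i) * (Real.pi / |u i|) := by field_simp
          rw [h5]
          nth_rewrite 1 [hφu]
          field_simp
        rw [this]; exact h
    · refine ⟨(Real.pi / 2) / (|u i| * b d ^ n), ?_, ?_, ?_⟩
      · rw [div_mul_cancel₀ _ (by positivity)]; linarith
      · rw [div_mul_cancel₀ _ (by positivity)]; linarith [Real.pi_pos]
      · have : b d ^ n * (((Real.pi / 2) / (|u i| * b d ^ n)) * u i) = φ * (Real.pi / 2) := by
          have h5 : b d ^ n * (((Real.pi / 2) / (|u i| * b d ^ n)) * u i) =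
            (u i) * ((Real.pi / 2) / |u i|) := by field_simp
          rw [h5]
          nth_rewrite 1 [hφu]
          field_simp
        rw [this]; exact h
  have hsp : 0 < s := by
    by_contra hcon
    push Not at hcon
    have : s * (|u i| * b d ^ n) ≤ 0 := mul_nonpos_of_nonpos_of_nonneg hcon (by positivity)
    linarith
  have hsb : s * b d ^ n ≤ 4 * d := by
    calc s * b d ^ n = 1 * (s * b d ^ n) := by ring
      _ ≤ (d * |u i|) * (s * b d ^ n) := mul_le_mul_of_nonneg_right hi (by positivity)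
      _ = d * (s * (|u i| * b d ^ n)) := by ring
      _ ≤ d * 4 := mul_le_mul_of_nonneg_left hs1 hdpos.le
      _ = _ := by ring
  refine ⟨s, ?_, hsb, fun y hy => ?_⟩
  · calc (1 : ℝ) ≤ s * (|u i| * b d ^ n) := hs0
      _ = |u i| * (s * b d ^ n) := by ring
      _ ≤ 1 * (s * b d ^ n) := mul_le_mul_of_nonneg_right hω1 (by positivity)
      _ = _ := one_mul _
  · refine increment hu0 hsp (θ' := θ + b d ^ n * (s * u i)) ?_ ?_ ?_ ?_
    · rw [hu, one_mul]; exact hsb
    · have e1 : ‖y - x‖ ≤ ‖y - x - s • u‖ + ‖s • u‖ := by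
        have := norm_add_le (y - x - s • u) (s • u)
        rwa [sub_add_cancel] at this
      have e2 : ‖s • u‖ = s := by rw [norm_smul, hu, mul_one, Real.norm_eq_abs, abs_of_pos hsp]
      have e3 : s / (48 * d) ≤ s := by
        apply div_le_self hsp.le
        linarith
      rw [hu]
      linarith
    · rw [hn]
      have e1 : b d ^ n * y i - (θ + b d ^ n * (s * u i)) = b d ^ n * ((y - x - s • u) i) := by
        rw [hθ]
        simp only [PiLp.sub_apply, PiLp.smul_apply, smul_eq_mul]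
        ring
      rw [e1, abs_mul, abs_of_pos hbn]
      calc b d ^ n * |(y - x - s • u) i| ≤ b d ^ n * (s / (48 * d)) :=
            mul_le_mul_of_nonneg_left ((coord_le _ _).trans hy) hbn.le
        _ = (s * b d ^ n) * (1 / (48 * d)) := by ring
        _ ≤ (4 * d) * (1 / (48 * d)) := mul_le_mul_of_nonneg_right hsb (by positivity)
        _ = 1 / 12 := by field_simp; norm_num
    · rw [hn]; exact hs2

/-- the open dense sets -/
def O (K : Set (EuclideanSpace ℝ (Fin d))) (N : ℕ) : Set C(K, ℝ) :=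
  {f | ∃ h ρ : ℝ, 0 < h ∧ 0 < ρ ∧ ∀ (x : K) (u : (EuclideanSpace ℝ (Fin d))), ‖u‖ = 1 →
    ∃ s : ℝ, h ≤ s ∧ s ≤ 1 / ((N : ℝ) + 1) ∧ ∀ y : K, ‖(y : (EuclideanSpace ℝ (Fin d))) - x - s • u‖ ≤ s / (48 * d) →
      N * s + ρ ≤ |f y - f x|}

lemma isOpen_O (K : Set (EuclideanSpace ℝ (Fin d))) [CompactSpace K] (N : ℕ) : IsOpen (O K N) := by
  rw [Metric.isOpen_iff]
  rintro f ⟨h, ρ, hh, hρ, H⟩
  refine ⟨ρ / 4, by positivity, fun g hg => ?_⟩
  refine ⟨h, ρ / 2, hh, by positivity, fun x u hu => ?_⟩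
  obtain ⟨s, h1, h2, h3⟩ := H x u hu
  refine ⟨s, h1, h2, fun y hy => ?_⟩
  have h4 := h3 y hy
  have hd : ∀ z : K, |f z - g z| ≤ ρ / 4 := by
    intro z
    have e1 := ContinuousMap.dist_apply_le_dist (f := f) (g := g) z
    rw [Metric.mem_ball, dist_comm] at hg
    rw [Real.dist_eq] at e1
    exact e1.trans hg.le
  have h5 := hd x
  have h6 := hd y
  have h7 : |f y - f x| ≤ |g y - g x| + |f y - g y| + |f x - g x| := by
    have : f y - f x = (g y - g x) + (f y - g y) - (f x - g x) := by ring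
    rw [this]
    exact (abs_sub _ _).trans (add_le_add_left (abs_add_le _ _) _)
  linarith

/-- Lipschitz functions are dense. -/
lemma lip_dense (K : Set (EuclideanSpace ℝ (Fin d))) [CompactSpace K] (f : C(K, ℝ)) (ε : ℝ) (hε : 0 < ε) :
    ∃ g : C(K, ℝ), dist f g < ε ∧ ∃ L : ℝ, 0 ≤ L ∧ ∀ x y : K, |g x - g y| ≤ L * ‖(x : (EuclideanSpace ℝ (Fin d))) - y‖ := by
  let co : Fin d → C(K, ℝ) := fun i => ⟨fun x => (x : (EuclideanSpace ℝ (Fin d))) i, by fun_prop⟩
  let A : Subalgebra ℝ C(K, ℝ) := Algebra.adjoin ℝ (Set.range co)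
  have hsep : A.SeparatesPoints := by
    intro x y hxy
    have : ∃ i, (x : (EuclideanSpace ℝ (Fin d))) i ≠ (y : (EuclideanSpace ℝ (Fin d))) i := by
      by_contra hcon
      push Not at hcon
      exact hxy (Subtype.ext (by ext i; exact hcon i))
    obtain ⟨i, hi⟩ := this
    exact ⟨_, ⟨co i, Algebra.subset_adjoin ⟨i, rfl⟩, rfl⟩, hi⟩
  have htop := ContinuousMap.subalgebra_topologicalClosure_eq_top_of_separatesPoints A hsep
  have hmem : f ∈ A.topologicalClosure := by rw [htop]; trivial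
  have hmem' : f ∈ closure (A : Set C(K, ℝ)) := by
    rwa [← SetLike.mem_coe, Subalgebra.topologicalClosure_coe] at hmem
  obtain ⟨g, hg, hdist⟩ := Metric.mem_closure_iff.1 hmem' ε hε
  refine ⟨g, hdist, ?_⟩
  have hbd : ∀ k : C(K, ℝ), ∀ z : K, |k z| ≤ ‖k‖ := fun k z => by
    rw [← Real.norm_eq_abs]; exact ContinuousMap.norm_coe_le_norm k z
  refine Algebra.adjoin_induction (p := fun (g : C(K, ℝ)) _ => ∃ L : ℝ, 0 ≤ L ∧
    ∀ x y : K, |g x - g y| ≤ L * ‖(x : (EuclideanSpace ℝ (Fin d))) - (y : (EuclideanSpace ℝ (Fin d)))‖) ?_ ?_ ?_ ?_ hg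
  · rintro _ ⟨i, rfl⟩
    refine ⟨1, zero_le_one, fun x y => ?_⟩
    have := coord_le ((x : (EuclideanSpace ℝ (Fin d))) - (y : (EuclideanSpace ℝ (Fin d)))) i
    rw [one_mul]
    exact this
  · intro r
    refine ⟨0, le_rfl, fun x y => ?_⟩
    simp
  · rintro p r _ _ ⟨L1, h1, H1⟩ ⟨L2, h2, H2⟩
    refine ⟨L1 + L2, by positivity, fun x y => ?_⟩
    have : (p + r) x - (p + r) y = (p x - p y) + (r x - r y) := by
      simp only [ContinuousMap.add_apply]; ring
    rw [this, add_mul]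
    exact (abs_add_le _ _).trans (add_le_add (H1 x y) (H2 x y))
  · rintro p r _ _ ⟨L1, h1, H1⟩ ⟨L2, h2, H2⟩
    refine ⟨‖p‖ * L2 + ‖r‖ * L1, by positivity, fun x y => ?_⟩
    have : (p * r) x - (p * r) y = p x * (r x - r y) + r y * (p x - p y) := by
      simp only [ContinuousMap.mul_apply]; ring
    rw [this, add_mul]
    refine (abs_add_le _ _).trans (add_le_add ?_ ?_)
    · rw [abs_mul, mul_assoc]
      exact mul_le_mul (hbd p x) (H2 x y) (abs_nonneg _) (norm_nonneg _)
    · rw [abs_mul, mul_assoc]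
      exact mul_le_mul (hbd r y) (H1 x y) (abs_nonneg _) (norm_nonneg _)

lemma dense_O (K : Set (EuclideanSpace ℝ (Fin d))) [CompactSpace K] (N : ℕ) : Dense (O K N) := by
  rw [Metric.dense_iff]
  intro f r hr
  obtain ⟨g, hg, L, hL, hLip⟩ := lip_dense K f (r / 2) (by positivity)
  have hdpos : (0 : ℝ) < d := by exact_mod_cast NeZero.pos d
  have hd1 : (1 : ℝ) ≤ d := by exact_mod_cast NeZero.one_le
  have hbp := b_pos (d := d)
  have hb1 : 1 < b d := by unfold b; linarith [one_lt_q (d := d)]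
  have hqp := q_pos (d := d)
  -- the perturbation
  let FK : C(K, ℝ) := ⟨fun x => F (x : (EuclideanSpace ℝ (Fin d))), continuous_f.comp continuous_subtype_val⟩
  set ε : ℝ := r / (4 * (‖FK‖ + 1)) with hε
  have hεp : 0 < ε := by positivity
  refine ⟨g + ε • FK, ?_, ?_⟩
  · rw [Metric.mem_ball, dist_comm]
    calc dist f (g + ε • FK) ≤ dist f g + dist g (g + ε • FK) := dist_triangle _ _ _
      _ < r / 2 + r / 2 := by
          apply add_lt_add hg
          rw [dist_self_add_right, norm_smul, Real.norm_eq_abs, abs_of_pos hεp, hε]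
          rw [div_mul_eq_mul_div, div_lt_div_iff₀ (by positivity) (by norm_num)]
          nlinarith [norm_nonneg FK]
      _ = r := by ring
  · -- choose the scale
    have hlim1 : Tendsto (fun n : ℕ => b d ^ n) atTop atTop := tendsto_pow_atTop_atTop_of_one_lt hb1
    have hlim2 : Tendsto (fun n : ℕ => q d ^ n) atTop atTop :=
      tendsto_pow_atTop_atTop_of_one_lt one_lt_q
    obtain ⟨n₀, hn₀⟩ := eventually_atTop.1
      ((hlim1.eventually_ge_atTop ((4 * d) * (N + 1))).and
        (hlim2.eventually_ge_atTop ((N + 2 * L) * (4 * d) * (24 / ε))))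
    set M : ℕ := n₀ * d + d with hM
    refine ⟨1 / b d ^ M, ε * (1 / 24) * (1 / 25) ^ M, by positivity, by positivity, fun x u hu => ?_⟩
    obtain ⟨i, hi⟩ := exists_coord u
    rw [hu] at hi
    set n : ℕ := n₀ * d + i with hn
    have hni : Fin.ofNat d n = i := by
      apply Fin.ext
      simp [hn, Fin.ofNat, Nat.add_comm, Nat.mod_eq_of_lt i.2]
    have hnn : n₀ ≤ n := by
      have : 1 ≤ d := NeZero.one_le
      rw [hn]; nlinarith
    have hnM : n ≤ M := by rw [hn, hM]; have := i.2; omega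
    obtain ⟨h1, h2⟩ := hn₀ n hnn
    obtain ⟨s, hs1, hs2, hs3⟩ := cone (x : (EuclideanSpace ℝ (Fin d))) u hu i hi n hni
    have hbn : 0 < b d ^ n := by positivity
    have hsp : 0 < s := by
      by_contra hcon
      push Not at hcon
      have : s * b d ^ n ≤ 0 := mul_nonpos_of_nonpos_of_nonneg hcon hbn.le
      linarith
    refine ⟨s, ?_, ?_, fun y hy => ?_⟩
    · rw [div_le_iff₀ (by positivity)]
      have : b d ^ n ≤ b d ^ M := pow_le_pow_right₀ hb1.le hnM
      nlinarith
    · rw [le_div_iff₀ (by positivity)]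
      have e1 : s * ((4 * d) * (N + 1)) ≤ 4 * d := (mul_le_mul_of_nonneg_left h1 hsp.le).trans hs2
      have e2 : (4 * (d : ℝ)) * (s * (N + 1)) ≤ (4 * d) * 1 := by linarith
      exact le_of_mul_le_mul_left e2 (by positivity)
    · have hF := hs3 (y : (EuclideanSpace ℝ (Fin d))) hy
      have e1 : ‖(y : (EuclideanSpace ℝ (Fin d))) - x‖ ≤ 2 * s := by
        have e1 : ‖(y : (EuclideanSpace ℝ (Fin d))) - x‖ ≤ ‖(y : (EuclideanSpace ℝ (Fin d))) - x - s • u‖ + ‖s • u‖ := by
          have := norm_add_le ((y : (EuclideanSpace ℝ (Fin d))) - x - s • u) (s • u)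
          rwa [sub_add_cancel] at this
        have e2 : ‖s • u‖ = s := by rw [norm_smul, hu, mul_one, Real.norm_eq_abs, abs_of_pos hsp]
        have e3 : s / (48 * d) ≤ s := by
          apply div_le_self hsp.le
          linarith
        linarith
      have e2 : |g y - g x| ≤ 2 * L * s := by
        refine (hLip y x).trans ?_
        nlinarith
      have e3 : |(g + ε • FK) y - (g + ε • FK) x| ≥ ε * |F (y : (EuclideanSpace ℝ (Fin d))) - F (x : (EuclideanSpace ℝ (Fin d)))| - |g y - g x| := by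
        have : (g + ε • FK) y - (g + ε • FK) x = ε * (F (y : (EuclideanSpace ℝ (Fin d))) - F (x : (EuclideanSpace ℝ (Fin d)))) + (g y - g x) := by
          simp only [ContinuousMap.add_apply, ContinuousMap.smul_apply, smul_eq_mul, FK,
            ContinuousMap.coe_mk]
          ring
        rw [this]
        have h5 := abs_sub_abs_le_abs_sub (ε * (F (y : (EuclideanSpace ℝ (Fin d))) - F (x : (EuclideanSpace ℝ (Fin d))))) (-(g y - g x))
        rw [abs_neg, sub_neg_eq_add, abs_mul, abs_of_pos hεp] at h5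
        exact h5
      have e4 : ε * ((1 / 25) ^ n * (1 / 12)) ≤ ε * |F (y : (EuclideanSpace ℝ (Fin d))) - F (x : (EuclideanSpace ℝ (Fin d)))| :=
        mul_le_mul_of_nonneg_left hF hεp.le
      -- `(N + 2 L) s ≤ ε 25^(-n) / 24`
      have hq : q d ^ n = (1 / 25) ^ n * b d ^ n := by rw [← mul_pow]; unfold b; ring
      have e5 : (N + 2 * L) * s ≤ ε * ((1 / 25) ^ n * (1 / 24)) := by
        have k1 : (N + 2 * L) * s * b d ^ n ≤ (N + 2 * L) * (4 * d) := by
          rw [mul_assoc]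
          exact mul_le_mul_of_nonneg_left hs2 (by positivity)
        have k2 : (N + 2 * L) * (4 * d) ≤ ε / 24 * q d ^ n := by
          have := mul_le_mul_of_nonneg_left h2 (by positivity : 0 ≤ ε / 24)
          calc (N + 2 * L) * (4 * d) = ε / 24 * ((N + 2 * L) * (4 * d) * (24 / ε)) := by
                field_simp
            _ ≤ _ := this
        have k3 : (N + 2 * L) * s * b d ^ n ≤ ε * ((1 / 25) ^ n * (1 / 24)) * b d ^ n := by
          refine (k1.trans k2).trans (le_of_eq ?_)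
          rw [hq]; ring
        exact le_of_mul_le_mul_right k3 hbn
      have e6 : ((1 : ℝ) / 25) ^ M ≤ (1 / 25) ^ n :=
        pow_le_pow_of_le_one (by norm_num) (by norm_num) hnM
      have e7 : ε * (1 / 24) * (1 / 25) ^ M ≤ ε * (1 / 24) * (1 / 25) ^ n :=
        mul_le_mul_of_nonneg_left e6 (by positivity)
      nlinarith

/-- every function in all the sets `O` is nowhere differentiable along curves. -/
lemma mem_nowhere (U : Set (EuclideanSpace ℝ (Fin d))) (f : C(closure U, ℝ)) (hf : ∀ N, f ∈ O (closure U) N) :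
    f ∈ NowhereSet U := by
  intro I c hI hne hc hunit hcU t₀ ht hdiff
  set G : ℝ → ℝ := fun t => ext U f (c t) with hG
  obtain ⟨D, hD⟩ : ∃ D, HasDerivWithinAt G D I t₀ := ⟨_, hdiff.hasDerivWithinAt⟩
  have hcd : HasDerivWithinAt c (derivWithin c I t₀) I t₀ :=
    ((hc.differentiableOn (by norm_num)) t₀ ht).hasDerivWithinAt
  set u := derivWithin c I t₀ with hu
  have hu1 : ‖u‖ = 1 := hunit t₀ ht
  have hdpos : (0 : ℝ) < d := by exact_mod_cast NeZero.pos d
  obtain ⟨τ, hτ, ρ, hρ, hside⟩ := side hI hne ht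
  have hτa : |τ| = 1 := by rcases hτ with rfl | rfl <;> simp
  have h1 : ∀ᶠ t in 𝓝[I] t₀, ‖c t - c t₀ - (t - t₀) • u‖ ≤ (1 / (48 * d)) * ‖t - t₀‖ :=
    (hasDerivWithinAt_iff_isLittleO.1 hcd).def (by positivity)
  have h2 : ∀ᶠ t in 𝓝[I] t₀, ‖G t - G t₀ - (t - t₀) • D‖ ≤ 1 * ‖t - t₀‖ :=
    (hasDerivWithinAt_iff_isLittleO.1 hD).def one_pos
  obtain ⟨r, hr, hball⟩ := Metric.mem_nhdsWithin_iff.1 (h1.and h2)
  obtain ⟨N, hN⟩ := exists_nat_gt (max (|D| + 1) (1 / min ρ r))
  have hN1 : |D| + 1 < N := (le_max_left _ _).trans_lt hN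
  have hN2 : 1 / min ρ r < N := (le_max_right _ _).trans_lt hN
  have hmin : 0 < min ρ r := lt_min hρ hr
  obtain ⟨h, η, hh, hη, H⟩ := hf N
  have hmemx : c t₀ ∈ closure U := subset_closure (hcU t₀ ht)
  obtain ⟨s, hs1, hs2, hs3⟩ := H ⟨c t₀, hmemx⟩ (τ • u) (by
    rw [norm_smul, hu1, mul_one, Real.norm_eq_abs, hτa])
  have hsp : 0 < s := hh.trans_le hs1
  have hsmin : s < min ρ r := by
    refine hs2.trans_lt ?_
    rw [div_lt_iff₀ hmin] at hN2
    rw [div_lt_iff₀ (by positivity)]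
    nlinarith
  set t : ℝ := t₀ + τ * s with htdef
  have htI : t ∈ I := hside s hsp.le (hsmin.trans_le (min_le_left _ _)).le
  have hts : t - t₀ = τ * s := by rw [htdef]; ring
  have htn : ‖t - t₀‖ = s := by
    rw [hts, Real.norm_eq_abs, abs_mul, hτa, one_mul, abs_of_pos hsp]
  have htb : t ∈ Metric.ball t₀ r := by
    rw [Metric.mem_ball, dist_eq_norm, htn]; exact hsmin.trans_le (min_le_right _ _)
  obtain ⟨k1, k2⟩ := hball ⟨htb, htI⟩
  rw [htn] at k1 k2
  have hmemy : c t ∈ closure U := subset_closure (hcU t htI)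
  have k3 := hs3 ⟨c t, hmemy⟩ (by
    have : s • τ • u = (t - t₀) • u := by rw [hts, smul_smul, mul_comm]
    change ‖c t - c t₀ - s • τ • u‖ ≤ _
    rw [this]
    refine k1.trans (le_of_eq ?_)
    ring)
  have eG : ∀ (x : (EuclideanSpace ℝ (Fin d))) (hx : x ∈ closure U), ext U f x = f ⟨x, hx⟩ := fun x hx => by
    unfold ext; rw [dif_pos hx]
  have k4 : |G t - G t₀| = |f ⟨c t, hmemy⟩ - f ⟨c t₀, hmemx⟩| := by
    simp only [hG, eG _ hmemy, eG _ hmemx]
  have k5 : |G t - G t₀| ≤ (|D| + 1) * s := by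
    have e1 : |G t - G t₀| ≤ ‖G t - G t₀ - (t - t₀) • D‖ + ‖(t - t₀) • D‖ := by
      have := norm_add_le (G t - G t₀ - (t - t₀) • D) ((t - t₀) • D)
      rw [sub_add_cancel] at this
      exact this
    have e2 : ‖(t - t₀) • D‖ = s * |D| := by rw [norm_smul, htn, Real.norm_eq_abs]
    linarith
  rw [k4] at k5
  nlinarith

end

/-- **Q1 holds**: for every `d ≥ 1` and every bounded open `U ⊆ ℝ^d` the set `𝒩(U)` contains a
dense `G_δ` subset of `C(closure U)`. -/
theorem result (d : ℕ) (hd : 1 ≤ d) (U : Set (EuclideanSpace ℝ (Fin d)))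
    (_hU : IsOpen U) (hb : Bornology.IsBounded U) :
    ∃ S : Set C(closure U, ℝ), IsGδ S ∧ Dense S ∧ S ⊆ NowhereSet U := by
  have : NeZero d := ⟨by omega⟩
  have : CompactSpace (closure U) := isCompact_iff_compactSpace.1 hb.isCompact_closure
  refine ⟨⋂ N : ℕ, O (closure U) N, IsGδ.iInter_of_isOpen fun N => isOpen_O _ N,
    dense_iInter_of_isOpen (fun N => isOpen_O _ N) (fun N => dense_O _ N), ?_⟩
  intro f hf
  exact mem_nowhere U f fun N => Set.mem_iInter.1 hf N

end Pool.Agent.Results.MP_3b0c1c_an.GenericNowhere
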